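import Pool.Agent.P.MP_6d4b14_an.CLMain

theorem Pool.Agent.Results.MP_6d4b14_an.Classification.result (G : ℝ → ℝ) :
    (∃ g : ℝ → ℝ, (∀ x ∈ Set.Icc (0 : ℝ) 1, ∀ y ∈ Set.Icc (0 : ℝ) 1,
        g (x * y) + g (x * (1 - y)) + g ((1 - x) * y) + g ((1 - x) * (1 - y)) =
          (g x + g (1 - x)) * (g y + g (1 - y))) ∧
      ∀ x ∈ Set.Icc (0 : ℝ) 1, g x + g (1 - x) = G x) ↔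
    ((∃ c : ℝ, ∀ x ∈ Set.Icc (0 : ℝ) 1, G x = c) ∨
    (G 0 = 1 ∧ G 1 = 1 ∧ ∃ c : ℝ, ∀ x ∈ Set.Ioo (0 : ℝ) 1, G x = c) ∨
    (∃ M : ℝ → ℝ,
      (∀ x ∈ Set.Icc (0 : ℝ) 1, ∀ y ∈ Set.Icc (0 : ℝ) 1, M (x * y) = M x * M y) ∧
      ∀ x ∈ Set.Icc (0 : ℝ) 1, G x = M x + M (1 - x)) ∨
    (∃ t : ℝ, ∀ x ∈ Set.Icc (0 : ℝ) 1, G x = 1 - t * (x * (1 - x))) ∨
    (∃ μ : ℝ, ∀ x ∈ Set.Icc (0 : ℝ) 1,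
      G x = μ * (x ^ 4 + (1 - x) ^ 4) + (1 - μ) * (x ^ 5 + (1 - x) ^ 5)) ∨
    ∃ O : ValuationSubring ℝ, (∀ q : ℚ, (q : ℝ) ∈ O) ∧ ∃ ρ : O.ValueGroup → ℝ,
      (∀ x ∈ O, ρ (O.valuation x) = 1) ∧
      ∀ x ∈ Set.Icc (0 : ℝ) 1, G x = ρ (O.valuation x)) := by
  refine Iff.trans ?_ (Pool.Agent.P.MP_6d4b14_an.CL.adm_iff G)
  exact ⟨fun ⟨g, hg, e⟩ => ⟨g, fun x y h1 h2 h3 h4 => hg x ⟨h1, h2⟩ y ⟨h3, h4⟩,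
      fun x h1 h2 => e x ⟨h1, h2⟩⟩,
    fun ⟨g, hg, e⟩ => ⟨g, fun x hx y hy => hg x y hx.1 hx.2 hy.1 hy.2,
      fun x hx => e x hx.1 hx.2⟩⟩
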