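import Pool.Agent.P.MP_6d4b14_an.GSUni
import Pool.Agent.P.MP_6d4b14_an.Reg

open Pool.Agent.P.MP_6d4b14_an in
theorem Pool.Agent.Results.MP_6d4b14_an.General.result (g : ℝ → ℝ) :
    (∀ x ∈ Set.Icc (0 : ℝ) 1, ∀ y ∈ Set.Icc (0 : ℝ) 1,
        g (x * y) + g (x * (1 - y)) + g ((1 - x) * y) + g ((1 - x) * (1 - y)) =
          (g x + g (1 - x)) * (g y + g (1 - y))) ↔
    ∃ g₀ f : ℝ → ℝ, GS.Part g₀ ∧ GS.Uni f ∧ ∀ x ∈ Set.Icc (0 : ℝ) 1, g x = g₀ x + f x := by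
  refine Iff.trans ?_ (GS.main_uni g)
  exact ⟨fun hg x y h1 h2 h3 h4 => hg x ⟨h1, h2⟩ y ⟨h3, h4⟩,
    fun hg x hx y hy => hg x y hx.1 hx.2 hy.1 hy.2⟩

open Pool.Agent.P.MP_6d4b14_an in
/-- Examples of functions with `Uni` in every even degree. -/
theorem Pool.Agent.Results.MP_6d4b14_an.General.uni_example (O : ValuationSubring ℝ)
    (a : ℝ →+ ℝ) (ha : ∀ x ∈ O, a x = 0) (n : ℕ) :
    GS.Uni fun x => a √x ^ (2 * n) - a √(1 - x) ^ (2 * n) :=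
  GS.GSUni_example O a ha n

open Pool.Agent.P.MP_6d4b14_an in
/-- Hahn coefficient maps exist, and the sum in the sixth family is finite. -/
theorem Pool.Agent.Results.MP_6d4b14_an.General.hahn_facts (O : ValuationSubring ℝ) :
    ((∀ q : ℚ, (q : ℝ) ∈ O) → ∃ p, GS.Hahn O p) ∧
    ∀ p, GS.Hahn O p → ∀ (x : ℝ) (γ : O.ValueGroup),
      {α | p α x ≠ 0 ∧ p (γ / α) x ≠ 0}.Finite :=
  ⟨GS.GSPart_exists O, fun _ hp x γ => GS.GSSix_supp' (GS.GSPart_hahn.1 hp) γ x x⟩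

open Pool.Agent.P.MP_6d4b14_an in
/-- Control: a function with `Uni` that is continuous on the open interval vanishes. -/
theorem Pool.Agent.Results.MP_6d4b14_an.General.uni_continuous (f : ℝ → ℝ) (hf : GS.Uni f)
    (hc : ∀ x ∈ Set.Ioo (0 : ℝ) 1,
      ∀ ε : ℝ, 0 < ε → ∃ δ : ℝ, 0 < δ ∧ ∀ y : ℝ, |y - x| < δ → |f y - f x| < ε) :
    ∀ x ∈ Set.Icc (0 : ℝ) 1, f x = 0 :=
  GS.Reg_uni hf hc

open Pool.Agent.P.MP_6d4b14_an in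
/-- Control (known, not claimed): the solutions that are continuous on the open interval form
five families with one real parameter. -/
theorem Pool.Agent.Results.MP_6d4b14_an.General.continuous_solutions (g : ℝ → ℝ)
    (hc : ∀ x ∈ Set.Ioo (0 : ℝ) 1,
      ∀ ε : ℝ, 0 < ε → ∃ δ : ℝ, 0 < δ ∧ ∀ y : ℝ, |y - x| < δ → |g y - g x| < ε) :
    (∀ x ∈ Set.Icc (0 : ℝ) 1, ∀ y ∈ Set.Icc (0 : ℝ) 1,
        g (x * y) + g (x * (1 - y)) + g ((1 - x) * y) + g ((1 - x) * (1 - y)) =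
          (g x + g (1 - x)) * (g y + g (1 - y))) ↔
    ∃ c : ℝ,
      (∀ x ∈ Set.Icc (0 : ℝ) 1, g x = (2 * c - c ^ 2) * x + (c ^ 2 - c) / 2) ∨
      (g 0 = 0 ∧ g 1 = 1 ∧ ∀ x ∈ Set.Ioo (0 : ℝ) 1, g x = (1 - c ^ 2) * x + (c ^ 2 + c) / 2) ∨
      (g 0 = 0 ∧ g 1 = 1 ∧ ∀ x ∈ Set.Ioo (0 : ℝ) 1, g x = x ^ c) ∨
      (∀ x ∈ Set.Icc (0 : ℝ) 1, g x = (c - 2) * (c - 3) / 6 * x + (3 * c - c ^ 2) / 2 * x ^ 2 +
        (c ^ 2 - 2 * c) / 3 * x ^ 3) ∨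
      ∀ x ∈ Set.Icc (0 : ℝ) 1,
        g x = c * (5 - 3 * c) / 2 * x ^ 4 + (c - 1) * (3 * c - 5) / 5 * x ^ 5 +
          c * (c - 1) / 30 * (2 * x - 15 * x ^ 2 + 40 * x ^ 3) :=
  Iff.trans ⟨fun hg x y h1 h2 h3 h4 => hg x ⟨h1, h2⟩ y ⟨h3, h4⟩,
    fun hg x hx y hy => hg x y hx.1 hx.2 hy.1 hy.2⟩ (GS.Reg_list hc)

open Pool.Agent.P.MP_6d4b14_an in
/-- Control (known, not claimed): a measurable solution is continuous on the open interval.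
Measurability is in Lusin's form: off open intervals of total length at most `η` the function is
continuous. -/
theorem Pool.Agent.Results.MP_6d4b14_an.General.measurable_solutions (g : ℝ → ℝ)
    (hg : ∀ x ∈ Set.Icc (0 : ℝ) 1, ∀ y ∈ Set.Icc (0 : ℝ) 1,
      g (x * y) + g (x * (1 - y)) + g ((1 - x) * y) + g ((1 - x) * (1 - y)) =
        (g x + g (1 - x)) * (g y + g (1 - y)))
    (hL : ∀ η : ℝ, 0 < η → ∃ a b s : ℕ → ℝ, s 0 = 0 ∧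
      (∀ n, a n ≤ b n ∧ s (n + 1) = s n + (b n - a n) ∧ s n ≤ η) ∧
      ∀ x ∈ Set.Icc (0 : ℝ) 1, (∀ n, x ∉ Set.Ioo (a n) (b n)) →
        ∀ ε : ℝ, 0 < ε → ∃ δ : ℝ, 0 < δ ∧ ∀ y ∈ Set.Icc (0 : ℝ) 1,
          (∀ n, y ∉ Set.Ioo (a n) (b n)) → |y - x| < δ → |g y - g x| < ε) :
    ∀ x ∈ Set.Ioo (0 : ℝ) 1,
      ∀ ε : ℝ, 0 < ε → ∃ δ : ℝ, 0 < δ ∧ ∀ y : ℝ, |y - x| < δ → |g y - g x| < ε :=
  GS.Reg_meas (fun x y h1 h2 h3 h4 => hg x ⟨h1, h2⟩ y ⟨h3, h4⟩) hL
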