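import Pool.Agent.P.MP_6d4b14_an.NonClassical

open unitInterval Pool.Agent.P.MP_6d4b14_an

theorem Pool.Agent.Results.MP_6d4b14_an.NonClassical.result :
    ∃ g : I → ℝ, SolvesE g ∧ (∀ x, g x = 0 ∨ g x = 1 ∨ g x = 2) ∧ ¬ AEMeasurable g ∧
      g ∉ Algebra.adjoin ℝ {h : I → ℝ |
        (∀ x y z : I, (z : ℝ) = x + y → h z = h x + h y) ∨
        (∀ x y : I, h (x * y) = h x * h y) ∨
        (∀ x y : I, x ≠ 0 → y ≠ 0 → h (x * y) = h x + h y)} :=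
  Pool.Agent.P.MP_6d4b14_an.nonclassical
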