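import Pool.Agent.P.MP_6d4b14_an.Rational

open unitInterval Pool.Agent.P.MP_6d4b14_an

theorem Pool.Agent.Results.MP_6d4b14_an.Rational.result
    (g : I → ℝ) (hg : SolvesE g) (g0 : ℚ → ℝ) :
    (∃ g' : I → ℝ, SolvesE g' ∧ (∀ x, g' x + g' (σ x) = g x + g (σ x)) ∧
      ∀ (q : ℚ) (hq : (q : ℝ) ∈ I), g' ⟨q, hq⟩ = g0 q) ↔
    ∃ F : ℕ → ℚ → ℝ,
      (∀ p : ℕ, p.Prime → (∀ z, F p (-z) = - F p z) ∧
        ∀ z h, padicNorm p h ^ 2 ≤ max 1 (padicNorm p z) → F p (z + h) = F p z) ∧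
      ∀ (q : ℚ) (hq : (q : ℝ) ∈ I), g0 q = g ⟨q, hq⟩ + ∑ p ∈ q.den.primeFactors, F p q :=
  Pool.Agent.P.MP_6d4b14_an.rational g hg g0
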